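import Pool.Agent.L5helper72.BD.Defs2
import Pool.Agent.TH437.GR.Small

/-!
# SPR (by helper57): for `θ > 1` most `n` are blocked
-/

set_option autoImplicit false

namespace Pool.Agent.L5helper57.BD
open Finset Filter Topology
open Pool.Agent.L5helper72.BD
open Pool.Agent.TH437.GRS (roughSet mem_roughSet rough_card)

theorem sum_small (A θ δ : ℝ) (hA : 0 < A) (hθ : 1 < θ) (hδ : 0 < δ) :
    ∀ᶠ C : ℝ in atTop,
      ∑' k : ℕ, 1 / Real.log (Real.exp (A * ((k + 1 : ℕ) : ℝ) ^ θ) + C) < δ := by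
  have hs : Summable (fun k : ℕ => 1 / (A * ((k + 1 : ℕ) : ℝ) ^ θ)) := by
    have h1 : Summable (fun n : ℕ => 1 / (n : ℝ) ^ θ) := Real.summable_one_div_nat_rpow.2 hθ
    have h2 : Summable (fun n : ℕ => 1 / ((n + 1 : ℕ) : ℝ) ^ θ) :=
      (summable_nat_add_iff (f := fun n : ℕ => 1 / (n : ℝ) ^ θ) 1).2 h1
    refine (h2.mul_left (1 / A)).congr fun k => ?_
    rw [one_div_mul_one_div]
  have ht : Tendsto (fun C : ℝ => ∑' k : ℕ, 1 / Real.log (Real.exp (A * ((k + 1 : ℕ) : ℝ) ^ θ) + C))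
      atTop (𝓝 (∑' _ : ℕ, (0 : ℝ))) := by
    refine tendsto_tsum_of_dominated_convergence hs (fun k => ?_) ?_
    · exact tendsto_const_nhds.div_atTop
        (Real.tendsto_log_atTop.comp (tendsto_atTop_add_const_left atTop _ tendsto_id))
    · filter_upwards [eventually_ge_atTop (0 : ℝ)] with C hC k
      have hx : 0 < A * ((k + 1 : ℕ) : ℝ) ^ θ := by positivity
      have hlog : A * ((k + 1 : ℕ) : ℝ) ^ θ ≤
          Real.log (Real.exp (A * ((k + 1 : ℕ) : ℝ) ^ θ) + C) := by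
        rw [Real.le_log_iff_exp_le (by positivity)]
        linarith
      rw [Real.norm_eq_abs, abs_of_nonneg (one_div_nonneg.2 (hx.le.trans hlog))]
      exact one_div_le_one_div_of_le hx hlog
  rw [tsum_zero] at ht
  exact ht.eventually (gt_mem_nhds hδ)

theorem two_mul_le (A θ C : ℝ) (hA : 0 < A) (hθ : 1 < θ) (hC : 2 / A ^ 2 ≤ C) (k : ℕ)
    (hk : 1 ≤ k) : 2 * (k : ℝ) ≤ Real.exp (A * (k : ℝ) ^ θ) + C := by
  have hk1 : (1 : ℝ) ≤ k := by exact_mod_cast hk
  have h1 : (k : ℝ) ≤ (k : ℝ) ^ θ := by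
    calc (k : ℝ) = (k : ℝ) ^ (1 : ℝ) := (Real.rpow_one _).symm
      _ ≤ (k : ℝ) ^ θ := Real.rpow_le_rpow_of_exponent_le hk1 hθ.le
  have h2 : Real.exp (A * k) ≤ Real.exp (A * (k : ℝ) ^ θ) :=
    Real.exp_le_exp.2 (mul_le_mul_of_nonneg_left h1 hA.le)
  have h3 := Real.quadratic_le_exp_of_nonneg (x := A * k) (by positivity)
  have h4 : 2 * (k : ℝ) ≤ (A * k) ^ 2 / 2 + 2 / A ^ 2 := by
    have h5 : (A * k) ^ 2 / 2 + 2 / A ^ 2 - 2 * k = (A ^ 2 * k - 2) ^ 2 / (2 * A ^ 2) := by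
      field_simp
      ring
    have h6 : 0 ≤ (A ^ 2 * k - 2) ^ 2 / (2 * A ^ 2) := by positivity
    linarith
  have h7 : 0 ≤ A * k := by positivity
  linarith

theorem SPR_holds : St_SPR := by
  intro A θ δ hA hθ hδ
  obtain ⟨C, hsum, hC1, hC2⟩ := ((sum_small A θ (δ / 50) hA hθ (by positivity)).and
    ((eventually_ge_atTop (2 : ℝ)).and (eventually_ge_atTop (2 / A ^ 2)))).exists
  refine ⟨C, by linarith, Eventually.of_forall fun N => ?_⟩
  set y : ℕ → ℝ := fun k => Real.exp (A * (k : ℝ) ^ θ) + C with hy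
  have hy2 : ∀ k, 2 ≤ y k := fun k => by
    have := Real.exp_pos (A * (k : ℝ) ^ θ)
    simp only [hy]
    linarith
  have hlogpos : ∀ k, 0 < Real.log (y k) := fun k => Real.log_pos (by linarith [hy2 k])
  have hz2 : ∀ k, 2 ≤ ⌈y k⌉₊ := fun k => by
    have : (2 : ℝ) ≤ (⌈y k⌉₊ : ℝ) := (hy2 k).trans (Nat.le_ceil _)
    exact_mod_cast this
  classical
  set B : ℕ → Finset ℕ := fun k => if ⌈y k⌉₊ ≤ 2 * N then roughSet (2 * N) ⌈y k⌉₊ else ∅ with hB
  have hBcard : ∀ k, ((B k).card : ℝ) ≤ 50 * N * (1 / Real.log (y k)) := by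
    intro k
    simp only [hB]
    split_ifs with h
    · have h1 := rough_card (hz2 k) h
      have h2 : Real.log (y k) ≤ Real.log (⌈y k⌉₊ : ℝ) :=
        Real.log_le_log (by linarith [hy2 k]) (Nat.le_ceil _)
      rw [mul_one_div, le_div_iff₀ (hlogpos k)]
      have h3 : ((roughSet (2 * N) ⌈y k⌉₊).card : ℝ) * Real.log (y k) ≤
          ((roughSet (2 * N) ⌈y k⌉₊).card : ℝ) * Real.log (⌈y k⌉₊ : ℝ) :=
        mul_le_mul_of_nonneg_left h2 (Nat.cast_nonneg _)
      push_cast at h1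
      linarith
    · rw [Finset.card_empty, Nat.cast_zero]
      have := hlogpos k
      positivity
  have hsub : {n | n < N ∧ (Big A C θ n).Nonempty} ⊆
      (((Finset.range N).biUnion fun i => (B (i + 1)).image fun j => j - (i + 1) : Finset ℕ) :
        Set ℕ) := by
    rintro n ⟨hn, k, hk1, hk⟩
    have h1 : (2 * (k : ℝ)) < ((n + k).minFac : ℝ) :=
      lt_of_le_of_lt (two_mul_le A θ C hA hθ hC2 k hk1) hk
    have h2 : (n + k).minFac ≤ n + k := Nat.minFac_le (by omega)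
    have h3 : 2 * k < (n + k).minFac := by exact_mod_cast h1
    have hkN : k < N := by omega
    have hz : ⌈y k⌉₊ ≤ (n + k).minFac := Nat.ceil_le.2 hk.le
    rw [Finset.mem_coe, Finset.mem_biUnion]
    refine ⟨k - 1, Finset.mem_range.2 (by omega), Finset.mem_image.2 ⟨n + k, ?_, by omega⟩⟩
    rw [show k - 1 + 1 = k by omega]
    simp only [hB]
    rw [if_pos (by omega), mem_roughSet]
    refine ⟨⟨by omega, by omega⟩, fun q hq hqd => hz.trans (Nat.minFac_le_of_dvd hq.two_le hqd)⟩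
  have hcard : (Set.ncard {n | n < N ∧ (Big A C θ n).Nonempty} : ℝ) ≤
      ∑ i ∈ Finset.range N, ((B (i + 1)).card : ℝ) := by
    have h1 := Set.ncard_le_ncard hsub (Finset.finite_toSet _)
    rw [Set.ncard_coe_finset] at h1
    have h2 := h1.trans Finset.card_biUnion_le
    have h3 : ∑ i ∈ Finset.range N, ((B (i + 1)).image fun j => j - (i + 1)).card ≤
        ∑ i ∈ Finset.range N, (B (i + 1)).card :=
      Finset.sum_le_sum fun i _ => Finset.card_image_le
    exact_mod_cast h2.trans h3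
  have hnn : ∀ i : ℕ, 0 ≤ 1 / Real.log (y (i + 1)) := fun i => (one_div_pos.2 (hlogpos _)).le
  have hsm : Summable fun i : ℕ => 1 / Real.log (y (i + 1)) := by
    by_contra hns
    have h0 : Summable (fun k : ℕ => 1 / (A * ((k + 1 : ℕ) : ℝ) ^ θ)) := by
      have h1 : Summable (fun n : ℕ => 1 / (n : ℝ) ^ θ) := Real.summable_one_div_nat_rpow.2 hθ
      have h2 : Summable (fun n : ℕ => 1 / ((n + 1 : ℕ) : ℝ) ^ θ) :=
        (summable_nat_add_iff (f := fun n : ℕ => 1 / (n : ℝ) ^ θ) 1).2 h1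
      refine (h2.mul_left (1 / A)).congr fun k => ?_
      rw [one_div_mul_one_div]
    refine hns (h0.of_nonneg_of_le hnn fun k => ?_)
    have hx : 0 < A * ((k + 1 : ℕ) : ℝ) ^ θ := by positivity
    refine one_div_le_one_div_of_le hx ?_
    rw [Real.le_log_iff_exp_le (by linarith [hy2 (k + 1)])]
    simp only [hy]
    linarith
  have hsum2 : ∑ i ∈ Finset.range N, 1 / Real.log (y (i + 1)) ≤ δ / 50 :=
    (hsm.sum_le_tsum _ fun i _ => hnn i).trans hsum.le
  calc (Set.ncard {n | n < N ∧ (Big A C θ n).Nonempty} : ℝ)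
      ≤ ∑ i ∈ Finset.range N, ((B (i + 1)).card : ℝ) := hcard
    _ ≤ ∑ i ∈ Finset.range N, 50 * N * (1 / Real.log (y (i + 1))) :=
        Finset.sum_le_sum fun i _ => hBcard _
    _ = 50 * N * ∑ i ∈ Finset.range N, 1 / Real.log (y (i + 1)) := by rw [Finset.mul_sum]
    _ ≤ 50 * N * (δ / 50) := mul_le_mul_of_nonneg_left hsum2 (by positivity)
    _ = δ * N := by ring

end Pool.Agent.L5helper57.BD
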